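import Pool.Agent.Helper92.TG.GoalsX

/-!
# Project TG (MP_a41896_nt), packet RGEN: endomorphisms at the generic points
-/

set_option autoImplicit false

open Polynomial

namespace Pool.Agent.Helper35.TG.RGEN

open WeierstrassCurve
open Pool.Agent.Helper29.BL Pool.Agent.Helper42.SG
open Pool.Agent.Helper60.T3 (WL IP)
open Pool.Agent.Helper42.TG (Endo)
open Pool.Agent.Helper92.TG

noncomputable section

theorem ps_sq {F : Type} [Field F] {W : Affine F} (P : W.Point) (hP : P ≠ 0) :
    ps P ^ 2 = Bf W (xc P) := by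
  rcases P with _ | ⟨x, y, h⟩
  · exact absurd rfl hP
  · have he := h.1
    rw [Affine.equation_iff] at he
    show (2 * y + W.a₁ * x + W.a₃) ^ 2 = Bf W x
    unfold Bf WeierstrassCurve.b₂ WeierstrassCurve.b₄ WeierstrassCurve.b₆
    linear_combination 4 * he

theorem xc_neg {F : Type} [Field F] {W : Affine F} (P : W.Point) : xc (-P) = xc P := by
  rcases P with _ | ⟨x, y, h⟩ <;> rfl

theorem ps_neg {F : Type} [Field F] {W : Affine F} (P : W.Point) : ps (-P) = -ps P := by
  rcases P with _ | ⟨x, y, h⟩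
  · exact neg_zero.symm
  · show 2 * W.negY x y + W.a₁ * x + W.a₃ = -(2 * y + W.a₁ * x + W.a₃)
    rw [Affine.negY]
    ring

section

variable {K : Type} [Field K] {W : Affine K}

theorem xc_mp {F F' : Type} [Field F] [DecidableEq F] [Algebra K F] [Field F'] [DecidableEq F']
    [Algebra K F'] (j : F →ₐ[K] F') (P : (WL F W).Point) : xc (mp j P) = j (xc P) := by
  rcases P with _ | ⟨x, y, h⟩
  · exact (map_zero j).symm
  · rfl

theorem ps_mp {F F' : Type} [Field F] [DecidableEq F] [Algebra K F] [Field F'] [DecidableEq F']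
    [Algebra K F'] (j : F →ₐ[K] F') (P : (WL F W).Point) : ps (mp j P) = j (ps P) := by
  rcases P with _ | ⟨x, y, h⟩
  · exact (map_zero j).symm
  · show 2 * j y + (WL F' W).a₁ * j x + (WL F' W).a₃ =
      j (2 * y + (WL F W).a₁ * x + (WL F W).a₃)
    have c1 : j (WL F W).a₁ = (WL F' W).a₁ := j.commutes W.a₁
    have c3 : j (WL F W).a₃ = (WL F' W).a₃ := j.commutes W.a₃
    rw [map_add, map_add, map_mul, map_mul, map_ofNat, c1, c3]

/-- The polynomial `4 T³ + b₂ T² + 2 b₄ T + b₆`. -/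
def bp (W : Affine K) : K[X] :=
  C 4 * X ^ 3 + C W.b₂ * X ^ 2 + C (2 * W.b₄) * X + C W.b₆

theorem bp_aeval {F : Type} [Field F] [Algebra K F] (z : F) :
    aeval z (bp W) = Bf (WL F W) z := by
  unfold bp Bf
  have e2 : (WL F W).b₂ = algebraMap K F W.b₂ := WeierstrassCurve.map_b₂ _ _
  have e4 : (WL F W).b₄ = algebraMap K F W.b₄ := WeierstrassCurve.map_b₄ _ _
  have e6 : (WL F W).b₆ = algebraMap K F W.b₆ := WeierstrassCurve.map_b₆ _ _
  rw [e2, e4, e6]
  simp only [map_add, map_mul, map_pow, aeval_C, aeval_X, map_ofNat]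

theorem bp_ne [CharZero K] : bp W ≠ 0 := by
  intro h0
  have h1 := congrArg (fun p => Polynomial.coeff p 3) h0
  simp only [bp, Polynomial.coeff_add, Polynomial.coeff_C_mul,
    Polynomial.coeff_X_pow, Polynomial.coeff_X, Polynomial.coeff_C, Polynomial.coeff_zero] at h1
  norm_num at h1

theorem exists_pt [CharZero K] [W.IsElliptic] {F : Type} [Field F] [Algebra K F] [IsAlgClosed F]
    (x : F) : ∃ P : (WL F W).Point, P ≠ 0 ∧ xc P = x := by
  have : CharZero F := charZero_of_injective_algebraMap (algebraMap K F).injective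
  obtain ⟨z, hz⟩ := IsAlgClosed.exists_pow_nat_eq (Bf (WL F W) x) (n := 2) (by norm_num)
  have he : (WL F W).Equation x ((z - (WL F W).a₁ * x - (WL F W).a₃) / 2) := by
    rw [Affine.equation_iff]
    unfold Bf WeierstrassCurve.b₂ WeierstrassCurve.b₄ WeierstrassCurve.b₆ at hz
    linear_combination hz / 4
  exact ⟨.some _ _ (Affine.equation_iff_nonsingular.mp he), by simp, rfl⟩

end

/-- Algebraic over a field, algebraic over a larger field. -/
theorem alg_mono {A B Ω : Type} [Field A] [Field B] [Field Ω] [Algebra A Ω] [Algebra B Ω]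
    (h : ∀ x : A, ∃ y : B, algebraMap B Ω y = algebraMap A Ω x) {z : Ω} (hz : IsAlgebraic A z) :
    IsAlgebraic B z := by
  choose g0 hg0 using h
  have inj := (algebraMap B Ω).injective
  let g : A →+* B :=
    { toFun := g0
      map_one' := inj (by rw [hg0, map_one, map_one])
      map_mul' := fun a b => inj (by rw [hg0, map_mul, map_mul, hg0, hg0])
      map_zero' := inj (by rw [hg0, map_zero, map_zero])
      map_add' := fun a b => inj (by rw [hg0, map_add, map_add, hg0, hg0]) }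
  obtain ⟨p, hp, hpz⟩ := hz
  refine ⟨p.map g, (Polynomial.map_ne_zero_iff g.injective).mpr hp, ?_⟩
  rw [aeval_def, eval₂_map]
  have e : (algebraMap B Ω).comp g = algebraMap A Ω := RingHom.ext fun a => hg0 a
  rw [e]
  exact hpz

/-- the algebraic closure of `K(x)` -/
theorem alg_x (K : Type) [Field K] (z : AlgebraicClosure (RatFunc K)) :
    IsAlgebraic (IntermediateField.adjoin K
      ({algebraMap (RatFunc K) (AlgebraicClosure (RatFunc K)) RatFunc.X} :
        Set (AlgebraicClosure (RatFunc K)))) z := by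
  refine alg_mono (A := RatFunc K) (fun r => ?_) (Algebra.IsAlgebraic.isAlgebraic z)
  have key : ∀ p : K[X], algebraMap (RatFunc K) (AlgebraicClosure (RatFunc K))
      (algebraMap K[X] (RatFunc K) p) ∈ IntermediateField.adjoin K
      ({algebraMap (RatFunc K) (AlgebraicClosure (RatFunc K)) RatFunc.X} :
        Set (AlgebraicClosure (RatFunc K))) := by
    intro p
    rw [← RatFunc.aeval_X_left_eq_algebraMap, ← Polynomial.aeval_algebraMap_apply]
    exact IntermediateField.algebra_adjoin_le_adjoin _ _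
      (Polynomial.aeval_mem_adjoin_singleton K _)
  have h : algebraMap (RatFunc K) (AlgebraicClosure (RatFunc K)) r ∈ IntermediateField.adjoin K
      ({algebraMap (RatFunc K) (AlgebraicClosure (RatFunc K)) RatFunc.X} :
        Set (AlgebraicClosure (RatFunc K))) := by
    induction r using RatFunc.induction_on with
    | f p q hq =>
      rw [map_div₀]
      exact div_mem (key p) (key q)
  exact ⟨⟨_, h⟩, rfl⟩

theorem t (hE : Pool.Agent.Helper92.TG.EMB) (hI : IPN) (hD : DEC) : Pool.Agent.Helper92.TG.RGEN := by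
  classical
  intro K _ _ W hW ρ
  obtain ⟨P₀, hP₀, hx₀⟩ := exists_pt (W := W)
    (algebraMap (RatFunc K) (AlgebraicClosure (RatFunc K)) RatFunc.X)
  have hT : Transcendental K (xc P₀) := by
    rw [hx₀]
    exact (transcendental_algebraMap_iff
      (algebraMap (RatFunc K) (AlgebraicClosure (RatFunc K))).injective).mpr
      RatFunc.transcendental_X
  have hal : ∀ z : AlgebraicClosure (RatFunc K),
      IsAlgebraic (IntermediateField.adjoin K ({xc P₀} : Set (AlgebraicClosure (RatFunc K)))) z := by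
    rw [hx₀]
    exact alg_x K
  have hψ2 : ps P₀ ^ 2 = aeval (xc P₀) (bp W) := by rw [bp_aeval, ps_sq P₀ hP₀]
  have hψ : ps P₀ ≠ 0 := by
    intro h
    rw [h] at hψ2
    exact hT ⟨bp W, bp_ne, by rw [← hψ2]; ring⟩
  obtain ⟨σ, hσ⟩ := hE K W hW _ _ P₀ (-P₀) hT (by rwa [xc_neg]) hal
  have s1 : σ (xc P₀) = xc P₀ := by rw [← xc_mp, hσ, xc_neg]
  have s2 : σ (ps P₀) = -ps P₀ := by rw [← ps_mp, hσ, ps_neg]
  have s3 : mp σ (ρ.f _ P₀) = -ρ.f _ P₀ := by
    rw [← map_neg, ← hσ]
    exact (ρ.nat _ _ σ P₀).symm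
  have s4 : σ (xc (ρ.f _ P₀)) = xc (ρ.f _ P₀) := by rw [← xc_mp, s3, xc_neg]
  have s5 : σ (ps (ρ.f _ P₀)) = -ps (ρ.f _ P₀) := by rw [← ps_mp, s3, ps_neg]
  have gen : ∀ (F : Type) [Field F] [DecidableEq F] [Algebra K F] (P : (WL F W).Point),
      Transcendental K (xc P) → ∃ (i : F →ₐ[K] AlgebraicClosure F)
        (j : AlgebraicClosure (RatFunc K) →ₐ[K] AlgebraicClosure F), mp i P = mp j P₀ := by
    intro F _ _ _ P hP
    let i : F →ₐ[K] AlgebraicClosure F := IsScalarTower.toAlgHom K F (AlgebraicClosure F)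
    have h1 : Transcendental K (xc (mp i P)) := by
      rw [xc_mp]
      exact (transcendental_algebraMap_iff (R := K) (S := F) (A := AlgebraicClosure F)
        (algebraMap F (AlgebraicClosure F)).injective).mpr hP
    obtain ⟨j, hj⟩ := hE K W hW _ _ P₀ (mp i P) hT h1 hal
    exact ⟨i, j, hj.symm⟩
  by_cases h0 : ρ.f _ P₀ = 0
  · left
    intro F _ _ _ P hP
    obtain ⟨i, j, hij⟩ := gen F P hP
    have e1 : ρ.f _ (mp i P) = mp i (ρ.f F P) := ρ.nat _ _ i P
    have e2 : ρ.f _ (mp j P₀) = mp j (ρ.f _ P₀) := ρ.nat _ _ j P₀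
    have h1 : mp i (ρ.f F P) = mp j (ρ.f _ P₀) := by rw [← e1, hij, e2]
    rw [h0] at h1
    exact Affine.Point.map_injective i (h1.trans rfl)
  · right
    have hG : IP ((IntermediateField.adjoin K ({xc P₀, ps P₀} :
        Set (AlgebraicClosure (RatFunc K)))) : Set (AlgebraicClosure (RatFunc K))) P₀ :=
      Or.inr ⟨IntermediateField.subset_adjoin _ _ (Set.mem_insert _ _),
        IntermediateField.subset_adjoin _ _ (Set.mem_insert_of_mem _ rfl)⟩
    rcases hI K W ρ _ _ P₀ hG with h | ⟨g1, g2⟩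
    · exact absurd h h0
    obtain ⟨d1, -⟩ := hD K _ (xc P₀) (ps P₀) (xc (ρ.f _ P₀)) (bp W) σ hT hψ hψ2 s1 s2 g1
    obtain ⟨-, d2⟩ := hD K _ (xc P₀) (ps P₀) (ps (ρ.f _ P₀)) (bp W) σ hT hψ hψ2 s1 s2 g2
    obtain ⟨A, B, hAB, hB, d3⟩ := d1 s4
    obtain ⟨C', E', hE0, d4⟩ := d2 s5
    refine ⟨A, B, C', E', hAB, hB, hE0, ?_⟩
    intro F _ _ _ P hP
    obtain ⟨i, j, hij⟩ := gen F P hP
    have e1 : ρ.f _ (mp i P) = mp i (ρ.f F P) := ρ.nat _ _ i P
    have e2 : ρ.f _ (mp j P₀) = mp j (ρ.f _ P₀) := ρ.nat _ _ j P₀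
    have h1 : mp i (ρ.f F P) = mp j (ρ.f _ P₀) := by rw [← e1, hij, e2]
    have x1 : i (xc (ρ.f F P)) = j (xc (ρ.f _ P₀)) := by rw [← xc_mp, ← xc_mp, h1]
    have x2 : i (ps (ρ.f F P)) = j (ps (ρ.f _ P₀)) := by rw [← ps_mp, ← ps_mp, h1]
    have x3 : i (xc P) = j (xc P₀) := by rw [← xc_mp, ← xc_mp, hij]
    have x4 : i (ps P) = j (ps P₀) := by rw [← ps_mp, ← ps_mp, hij]
    have inj : Function.Injective i := (i : F →+* AlgebraicClosure F).injective
    refine ⟨fun h => h0 ?_, ?_, ?_⟩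
    · rw [h] at h1
      exact Affine.Point.map_injective j (h1.symm.trans rfl)
    · apply inj
      rw [map_mul, ← Polynomial.aeval_algHom_apply, ← Polynomial.aeval_algHom_apply, x1, x3,
        Polynomial.aeval_algHom_apply, Polynomial.aeval_algHom_apply, ← map_mul, d3]
    · apply inj
      rw [map_mul, map_mul, ← Polynomial.aeval_algHom_apply, ← Polynomial.aeval_algHom_apply,
        x2, x3, x4, Polynomial.aeval_algHom_apply, Polynomial.aeval_algHom_apply, ← map_mul,
        ← map_mul, d4]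

end

end Pool.Agent.Helper35.TG.RGEN
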